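import Pool.Agent.Q235.BK.Model

/-!
# Every power of `y` is a mastersymmetry of the dispersionless potential BKP equation (MP_0dcd56_mp)

`Expression` are the nonlocal differential expressions in `w` and `x`, `y` (built from rational
constants, `x`, `y`, `w`, sums, products, `∂_x`, `∂_y` and the formal inverse `J` of `∂_x`),
`Expression.frechet h f` is the Frechet derivative `f'[h]`, `Expression.V` is
`V = 15 w_x w_y - 15 w_x ^ 3 + 5 J w_yy`, and `Expression.bracket f = V'[f] - f'[V]`.
Expressions are compared in every model of the calculus (`Calculus`): commuting derivations, `J`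
inverse to `∂_x` on the expressions vanishing at `w = 0` and `J (x^i y^j) = x^(i+1) y^j / (i+1)`.

* The commutator of order `n + 1` of `V` with `y ^ n` vanishes, for every `n ≥ 1`.
* The order is exact: in a concrete model (formal series `∑ P_k(x,y) e^{kx}`) the commutator of
  order `n` of `V` with `y ^ n` is not zero.
-/

namespace Pool.Agent.Results.MP_0dcd56_mp.Mastersymmetries

open Q235.BK

universe v

theorem result :
    (∀ n : ℕ, 1 ≤ n → ∀ (A : Type v) [CommRing A] [Algebra ℚ A] (c : Calculus A) (w : A),
      w ∈ c.Z → Expression.eval c w (Expression.bracket^[n + 1] (Expression.ypow n)) = 0) ∧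
    (∃ c : Calculus (PowerSeries (MvPolynomial (Fin 2) ℚ)), ∀ n : ℕ, ∃ w ∈ c.Z,
      Expression.eval c w (Expression.bracket^[n] (Expression.ypow n)) ≠ 0) :=
  ⟨fun n _ A _ _ c w hw => vanish n A c w hw, model, nonvanish⟩

end Pool.Agent.Results.MP_0dcd56_mp.Mastersymmetries
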